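import Mathlib
import Pool.Agent.H159R3.Torus.Lines

/-!
Projective varieties given by few monomials that are high powers, or by forms of small Waring rank,
are Brody hyperbolic if and only if they contain no rational curve.
-/

namespace Pool.Agent.Results.MP_c6ff8d_ag.PowerAndWaringVarieties

open MvPolynomial Pool.Agent.H159R3 Pool.Agent.H159R3.Exp

theorem result {n : ℕ} {ι : Type} (F : ι → MvPolynomial (Fin (n + 1)) ℂ)
    (hF : ∀ i, ∃ d, 0 < d ∧ (F i).IsHomogeneous d)
    (hC : (∀ i, GGL.PowerSparse (F i)) ∨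
      ∀ i, ∀ d, (F i).IsHomogeneous d → Lang.SmallWaring (RingHom.id ℂ) (F i) d) :
    (∀ f, ¬ GGL.EntireCurve F f) ↔ ∀ Q, ¬ RationalCurve F Q :=
  Torus.hyperbolic_iff F hF hC

end Pool.Agent.Results.MP_c6ff8d_ag.PowerAndWaringVarieties
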